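import Pool.Agent.W619.Y.Stm11

/-! PG-ELL: the canonical form of an elliptic curve. -/

set_option autoImplicit false
set_option linter.overlappingInstances false
set_option linter.unusedSectionVars false

universe u v

open FF IntermediateField Pool.Agent.W619.PQ Pool.Agent.W619.PL Pool.Agent.W619.TW
  Pool.Agent.W603.LV

namespace Pool.Agent.W193.PG.ELL

theorem main : Pool.Agent.W619.Y.S_ELL := by
  intro k L _ _ _ _ _ F _ hell
  obtain ⟨D, hD⟩ := hell
  obtain ⟨w0, -⟩ := exists_place (k := k) (K := F)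
  obtain ⟨t0, -, ht0⟩ := w0.surj
  have hDt0 : D t0 ≠ 0 := (hD w0 t0 ht0).1
  have hD0 : D ≠ 0 := by
    rintro rfl
    exact hDt0 rfl
  have key : ∀ D' : Derivation k F F, ∀ t : F, D' t = (D' t0 / D t0) * D t := by
    intro D' t
    obtain ⟨h, rfl⟩ := der_smul (D' := D') hD0
    rw [Derivation.coe_smul, Pi.smul_apply, Pi.smul_apply, smul_eq_mul, smul_eq_mul,
      mul_div_cancel_right₀ _ hDt0]
  refine ⟨fun D1 => D1 0 t0 / D t0, ?_, ⟨fun _ => D, ?_⟩, ?_⟩
  · intro A D1
    simp only [Finset.univ_unique, Finset.sum_singleton, Fin.default_eq_zero,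
      Derivation.coe_smul, Pi.smul_apply, smul_eq_mul, pow_one, Matrix.det_unique]
    rw [mul_div_assoc]
  · simp only
    rw [div_self hDt0]
    exact one_ne_zero
  · intro q D1 hreg
    obtain ⟨t, -, ht⟩ := q.surj
    obtain ⟨h1, h2⟩ := hD q t ht
    have h3 : q.Reg (D1 0 t) := hreg 0 t (Or.inr (by omega))
    have h4 := key (D1 0) t
    show q.Reg (D1 0 t0 / D t0)
    by_cases h5 : D1 0 t0 / D t0 = 0
    · exact Or.inl h5
    · right
      rw [h4] at h3
      rcases h3 with h3 | h3
      · exact absurd h3 (mul_ne_zero h5 h1)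
      · rw [q.ord_mul h5 h1, h2, add_zero] at h3
        exact h3

end Pool.Agent.W193.PG.ELL
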